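import Pool.Agent.helper97.IRO.Spec

set_option autoImplicit false

/-!
# Invariant random left orders of `F`: row AL
-/

open MeasureTheory Pool.Agent.LOF

namespace Pool.Agent.IRO

theorem AL (h1 : CT1_stmt) : AL_stmt := by
  intro G _ P hP hC H f h hf pf hh
  -- `h⁻¹ < f ^ k` with `k ≥ 1`
  obtain ⟨n, hn⟩ := hf.2 h⁻¹ (H.inv_mem hh)
  rw [inv_inv] at hn
  obtain ⟨k, hk0, hk⟩ : ∃ k : ℕ, 0 < k ∧ P (h * f ^ k) := by
    refine ⟨n.toNat + 1, Nat.succ_pos _, ?_⟩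
    have e0 : (0 : ℤ) < ((n.toNat + 1 : ℕ) : ℤ) - n := by
      have := Int.self_le_toNat n
      push_cast
      linarith
    obtain ⟨j, hj⟩ := Int.eq_ofNat_of_zero_le e0.le
    have hj0 : 0 < j := by
      rw [hj] at e0
      exact_mod_cast e0
    have e1 := hP.mul _ _ hn (hP.pow pf hj0)
    have e2 : h * f ^ n * f ^ j = h * f ^ (n.toNat + 1) := by
      rw [mul_assoc, ← zpow_natCast f j, ← zpow_add, ← zpow_natCast f (n.toNat + 1)]
      congr 2
      have : (j : ℤ) = ((n.toNat + 1 : ℕ) : ℤ) - n := hj.symm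
      rw [this]
      ring
    rwa [e2] at e1
  rcases hP.tri' (f ^ (2 * k) * h) with h2 | h2 | h2
  · exact ⟨2 * k, h2⟩
  · refine ⟨2 * k + 1, ?_⟩
    rw [pow_succ', mul_assoc, h2, mul_one]
    exact pf
  · exfalso
    have h3 := h1 G P hP hC _ (f ^ k) h2 (hP.pow pf hk0)
    have e3 : (f ^ k)⁻¹ * (f ^ (2 * k) * h)⁻¹ * (f ^ k) ^ 2 = (h * f ^ k)⁻¹ := by
      have : f ^ (2 * k) = (f ^ k) ^ 2 := by rw [← pow_mul, mul_comm]
      rw [this]
      group
    rw [e3] at h3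
    exact hP.anti _ hk h3

end Pool.Agent.IRO
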