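import Pool.Agent.helper97.IRO.Spec

set_option autoImplicit false

/-!
# Invariant random left orders of `F`: row CT5
-/

open MeasureTheory Pool.Agent.LOF

namespace Pool.Agent.IRO

section
variable {G : Type} [Group G] {P : G → Prop}

/-- the larger of two positive elements -/
theorem CT5_aux (h : HU_stmt) (hP : Cone P) (hC : Conr P) {H : Subgroup G} {x y : G}
    (hy : y ∈ H) (px : P x) (py : P y) (hxy : x = y ∨ P (x⁻¹ * y)) {u : G}
    (hu : ∀ K : Subgroup G, x ∈ K → y ∈ K → u ∈ K) (hcu : Cof P H u) : Cof P H y := by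
  obtain ⟨K, hyK, hK⟩ := h G P hP hC y py
  have hxK : x ∈ K := by
    rcases hxy with rfl | hxy
    · exact hyK
    · rw [hK]
      exact ⟨⟨1, by rwa [pow_one]⟩, ⟨0, by rwa [pow_zero, mul_one]⟩⟩
  have huK := hu K hxK hyK
  refine ⟨hy, fun k hk => ?_⟩
  obtain ⟨n, hn⟩ := hcu.2 k hk
  obtain ⟨m, hm⟩ := ((hK (u ^ n)).1 (K.zpow_mem huK n)).1
  refine ⟨m, ?_⟩
  have := hP.mul _ _ hn hm
  have e : k⁻¹ * u ^ n * ((u ^ n)⁻¹ * y ^ m) = k⁻¹ * y ^ (m : ℤ) := by
    rw [zpow_natCast]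
    group
  rwa [e] at this

end

theorem CT5 (h : HU_stmt) : CT5_stmt := by
  intro G _ P hP hC H g k hg hk ng nk hc
  have hg1 : g ≠ 1 := by
    rintro rfl
    rw [one_mul] at hc
    exact nk hc
  have hk1 : k ≠ 1 := by
    rintro rfl
    rw [mul_one] at hc
    exact ng hc
  -- the absolute values
  have abs : ∀ z : G, z ∈ H → z ≠ 1 → ¬ Cof P H z → ∃ x : G, x ∈ H ∧ P x ∧ ¬ Cof P H x ∧
      ∀ K : Subgroup G, x ∈ K → z ∈ K := by
    intro z hz hz1 nz
    rcases hP.tri z hz1 with h1 | h1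
    · exact ⟨z, hz, h1, nz, fun K hK => hK⟩
    · refine ⟨z⁻¹, H.inv_mem hz, h1, fun h2 => nz ?_, fun K hK => by
        have := K.inv_mem hK
        rwa [inv_inv] at this⟩
      have := h2.inv
      rwa [inv_inv] at this
  obtain ⟨x, hx, px, nx, xK⟩ := abs g hg hg1 ng
  obtain ⟨y, hy, py, ny, yK⟩ := abs k hk hk1 nk
  rcases hP.tri' (x⁻¹ * y) with h1 | h1 | h1
  · exact ny (CT5_aux h hP hC hy px py (Or.inr h1)
      (fun K hxK hyK => K.mul_mem (xK K hxK) (yK K hyK)) hc)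
  · exact ny (CT5_aux h hP hC hy px py (Or.inl (inv_mul_eq_one.1 h1))
      (fun K hxK hyK => K.mul_mem (xK K hxK) (yK K hyK)) hc)
  · rw [mul_inv_rev, inv_inv] at h1
    exact nx (CT5_aux h hP hC hx py px (Or.inr h1)
      (fun K hyK hxK => K.mul_mem (xK K hxK) (yK K hyK)) hc)

end Pool.Agent.IRO
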