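import Pool.Agent.helper97.IRO.Spec

set_option autoImplicit false

/-!
# Invariant random left orders of `F`: row DF4
-/

open MeasureTheory Pool.Agent.LOF

namespace Pool.Agent.IRO

/-- the point cylinders -/
def DF4_C : Set (Set (D → Bool)) :=
  {S | ∃ (T : Finset D) (σ : D → Bool), S = {ε | ∀ x ∈ T, ε x = σ x}}

theorem DF4_pi : IsPiSystem DF4_C := by
  classical
  rintro _ ⟨T, σ, rfl⟩ _ ⟨T', σ', rfl⟩ ⟨g, hg1, hg2⟩
  refine ⟨T ∪ T', g, ?_⟩
  ext ε
  simp only [Set.mem_inter_iff, Set.mem_ofPred_eq, Finset.mem_union] at hg1 hg2 ⊢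
  constructor
  · rintro ⟨h1, h2⟩ x (hx | hx)
    · rw [h1 x hx, hg1 x hx]
    · rw [h2 x hx, hg2 x hx]
  · intro h
    exact ⟨fun x hx => by rw [h x (Or.inl hx), hg1 x hx],
      fun x hx => by rw [h x (Or.inr hx), hg2 x hx]⟩

theorem DF4_meas {S : Set (D → Bool)} (h : S ∈ DF4_C) : MeasurableSet S := by
  obtain ⟨T, σ, rfl⟩ := h
  have : {ε : D → Bool | ∀ x ∈ T, ε x = σ x} = ⋂ x ∈ T, (fun ε : D → Bool => ε x) ⁻¹' {σ x} := by
    ext; simp
  rw [this]
  exact Finset.measurableSet_biInter T fun x _ => measurable_pi_apply x (measurableSet_singleton _)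

theorem DF4_gen : MeasurableSpace.generateFrom DF4_C =
    (MeasurableSpace.pi : MeasurableSpace (D → Bool)) := by
  apply le_antisymm
  · exact MeasurableSpace.generateFrom_le fun S hS => DF4_meas hS
  · refine iSup_le fun x => ?_
    rw [← measurable_iff_comap_le]
    have : @MeasurableSet _ (MeasurableSpace.generateFrom DF4_C)
        ((fun b : D → Bool => b x) ⁻¹' {true}) := by
      refine MeasurableSpace.measurableSet_generateFrom ⟨{x}, fun _ => true, ?_⟩
      ext ε
      simp
    exact @measurable_to_bool _ (MeasurableSpace.generateFrom DF4_C) _ this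

theorem DF4_bern (p : unitInterval) (T : Finset D) (σ : D → Bool) :
    bernP p {ε | ∀ x ∈ T, ε x = σ x} =
      ∏ x ∈ T, ENNReal.ofReal (if σ x then p.1 else 1 - p.1) := by
  have h1 : {ε : D → Bool | ∀ x ∈ T, ε x = σ x} = Set.pi (T : Set D) (fun x => {σ x}) := by
    ext; simp [Set.mem_pi]
  rw [h1]
  unfold bernP
  rw [Measure.infinitePi_pi _ (fun x _ => measurableSet_singleton _)]
  refine Finset.prod_congr rfl fun x _ => ?_
  unfold coinP
  cases σ x <;> simp

/-- the order of the dyadics -/
@[reducible] noncomputable def DF4_ord : LinearOrder D :=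
  inferInstanceAs (LinearOrder {y : ℝ // IsDyadic y ∧ y ∈ Set.Ioo (0 : ℝ) 1})

theorem DF4_enum (T : Finset D) : ∃ (n : ℕ) (d : Fin n → D), (StrictMono fun i => (d i).1) ∧
    Function.Injective d ∧ Set.range d = (T : Set D) := by
  let _i : LinearOrder D := DF4_ord
  refine ⟨T.card, T.orderEmbOfFin rfl, ?_, (T.orderEmbOfFin rfl).injective,
    Finset.range_orderEmbOfFin T rfl⟩
  intro i j hij
  exact (T.orderEmbOfFin rfl).strictMono hij

theorem DF4 (h0 : DF0_stmt) (h3 : DF3_stmt) : DF4_stmt := by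
  classical
  intro Ω _ μ _ hμ
  obtain ⟨α, hα, h⟩ := h3 Ω μ hμ
  have hφ : Measurable (fun z : Ω × (D → Bool) => (z.1, α z)) := measurable_fst.prodMk hα
  refine ⟨μ.map (fun z => (z.1, α z)), inferInstance, ?_⟩
  set m := μ.map (fun z : Ω × (D → Bool) => (z.1, α z)) with hm
  let κ : ProbabilityTheory.Kernel (Ω × unitInterval) (D → Bool) :=
    ⟨fun w => bernP w.2, h0.comp measurable_snd⟩
  have _hκ : ProbabilityTheory.IsMarkovKernel κ := ⟨fun w => bernP_prob w.2⟩
  have hψ : Measurable (fun z : (Ω × unitInterval) × (D → Bool) => (z.1.1, z.2)) := by fun_prop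
  have hν : ∀ A : Set (Ω × (D → Bool)), MeasurableSet A →
      ((m.compProd κ).map (fun z : (Ω × unitInterval) × (D → Bool) => (z.1.1, z.2))) A =
        ∫⁻ w, bernP w.2 {ε | (w.1, ε) ∈ A} ∂m := by
    intro A hA
    rw [Measure.map_apply hψ hA, Measure.compProd_apply (hψ hA)]
    rfl
  set ν := (m.compProd κ).map (fun z : (Ω × unitInterval) × (D → Bool) => (z.1.1, z.2)) with hνdef
  have main : ∀ B : Set Ω, MeasurableSet B → ∀ S ∈ DF4_C, μ (B ×ˢ S) = ν (B ×ˢ S) := by
    intro B hB S hS
    have hSm := DF4_meas hS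
    obtain ⟨T, σ, rfl⟩ := hS
    obtain ⟨n, d, hd1, hd2, hd3⟩ := DF4_enum T
    -- the right side
    have e1 : ν (B ×ˢ {ε | ∀ x ∈ T, ε x = σ x}) =
        ∫⁻ z in {z : Ω × (D → Bool) | z.1 ∈ B}, ∏ x ∈ T,
          ENNReal.ofReal (if σ x then (α z).1 else 1 - (α z).1) ∂μ := by
      rw [hνdef, Measure.map_apply hψ (hB.prod hSm)]
      have e2 : (fun z : (Ω × unitInterval) × (D → Bool) => (z.1.1, z.2)) ⁻¹'
          (B ×ˢ {ε | ∀ x ∈ T, ε x = σ x}) = (B ×ˢ Set.univ) ×ˢ {ε | ∀ x ∈ T, ε x = σ x} := by
        ext z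
        simp
      rw [e2, Measure.compProd_apply_prod (hB.prod MeasurableSet.univ) hSm, hm,
        setLIntegral_map (hB.prod MeasurableSet.univ) (κ.measurable_coe hSm) hφ]
      have e3 : (fun z : Ω × (D → Bool) => (z.1, α z)) ⁻¹' (B ×ˢ Set.univ) = {z | z.1 ∈ B} := by
        ext z
        simp
      rw [e3]
      refine lintegral_congr fun z => ?_
      exact DF4_bern (α z) T σ
    -- the left side
    have e4 : B ×ˢ {ε : D → Bool | ∀ x ∈ T, ε x = σ x} =
        {z : Ω × (D → Bool) | z.1 ∈ B ∧ ∀ i, z.2 (d i) = σ (d i)} := by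
      ext z
      simp only [Set.mem_prod, Set.mem_ofPred_eq]
      refine and_congr_right fun _ => ?_
      constructor
      · intro h1 i
        refine h1 (d i) ?_
        have : d i ∈ (T : Set D) := hd3 ▸ Set.mem_range_self i
        exact this
      · intro h1 x hx
        have : x ∈ Set.range d := by rw [hd3]; exact hx
        obtain ⟨i, rfl⟩ := this
        exact h1 i
    have hT : T = Finset.univ.image d := by
      ext x
      rw [Finset.mem_image]
      constructor
      · intro hx
        have : x ∈ Set.range d := by rw [hd3]; exact hx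
        obtain ⟨i, rfl⟩ := this
        exact ⟨i, Finset.mem_univ _, rfl⟩
      · rintro ⟨i, _, rfl⟩
        have : d i ∈ (T : Set D) := hd3 ▸ Set.mem_range_self i
        exact this
    rw [e1]
    have e5 := h n d (fun i => σ (d i)) B hB hd1
    rw [← e4] at e5
    have hfac : ∀ (b : Bool) (p : unitInterval), 0 ≤ (if b then p.1 else 1 - p.1) ∧
        (if b then p.1 else 1 - p.1) ≤ 1 := by
      intro b p
      have h1 := p.2.1
      have h2 := p.2.2
      cases b
      · simp only [Bool.false_eq_true, if_false]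
        constructor <;> linarith
      · simp only [if_true]
        exact ⟨h1, h2⟩
    have hnn : ∀ z, 0 ≤ ∏ i, (if σ (d i) then (α z).1 else 1 - (α z).1) := fun z =>
      Finset.prod_nonneg fun i _ => (hfac (σ (d i)) (α z)).1
    have hle : ∀ z, ∏ i, (if σ (d i) then (α z).1 else 1 - (α z).1) ≤ 1 := fun z =>
      Finset.prod_le_one (fun i _ => (hfac (σ (d i)) (α z)).1) fun i _ => (hfac (σ (d i)) (α z)).2
    have hαr : Measurable (fun z => (α z).1) := measurable_subtype_coe.comp hα
    have hmeas : Measurable (fun z => ∏ i, (if σ (d i) then (α z).1 else 1 - (α z).1)) := by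
      refine Finset.measurable_fun_prod _ fun i _ => ?_
      cases σ (d i)
      · simp only [Bool.false_eq_true, if_false]
        exact measurable_const.sub hαr
      · simp only [if_true]
        exact hαr
    have hint : Integrable (fun z => ∏ i, (if σ (d i) then (α z).1 else 1 - (α z).1))
        (μ.restrict {z | z.1 ∈ B}) := by
      refine Integrable.of_bound hmeas.aestronglyMeasurable 1 (Filter.Eventually.of_forall fun z => ?_)
      rw [Real.norm_eq_abs, abs_of_nonneg (hnn z)]
      exact hle z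
    rw [← ENNReal.ofReal_toReal (measure_ne_top μ (B ×ˢ {ε : D → Bool | ∀ x ∈ T, ε x = σ x})), e5,
      ofReal_integral_eq_lintegral_ofReal hint (Filter.Eventually.of_forall hnn)]
    refine lintegral_congr fun z => ?_
    rw [ENNReal.ofReal_prod_of_nonneg fun i _ => (hfac (σ (d i)) (α z)).1, hT,
      Finset.prod_image fun a _ b _ hab => hd2 hab]
  have huniv : (Set.univ : Set (D → Bool)) ∈ DF4_C := ⟨∅, fun _ => true, by simp⟩
  have key : μ = ν := by
    refine ext_of_generate_finite (Set.image2 (· ×ˢ ·) {B : Set Ω | MeasurableSet B} DF4_C) ?_ ?_ ?_ ?_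
    · exact (generateFrom_eq_prod MeasurableSpace.generateFrom_measurableSet DF4_gen
        isCountablySpanning_measurableSet ⟨fun _ => Set.univ, fun _ => huniv, Set.iUnion_const _⟩).symm
    · exact MeasurableSpace.isPiSystem_measurableSet.prod DF4_pi
    · rintro _ ⟨B, hB, S, hS, rfl⟩
      exact main B hB S hS
    · have := main Set.univ MeasurableSet.univ Set.univ huniv
      rwa [Set.univ_prod_univ] at this
  intro A hA
  rw [← hν A hA, ← key]

end Pool.Agent.IRO
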